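import Pool.Agent.Work.MP_156639_an.Interface
import Pool.Agent.Work.MP_156639_an.Basic

/-!
# Block LOC : the symbol of an operator
-/

set_option autoImplicit false

open scoped BigOperators
open Filter Topology

namespace Pool.Agent.MP156639

namespace LOCh

section
variable {Ω : Type} [LinearOrder Ω] (D : LD Ω) {Y : Type} [NormedAddCommGroup Y]
  [NormedSpace ℝ Y] (val : Y →ₗ[ℝ] (Pt Ω → ℝ)) (hval : D.IsSp val) (T : Y →L[ℝ] Y)

/-- the limit at `v` is `ψ v * lam` -/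
def Q (v : Vx Ω) (lam : ℝ) (ψ : Vx Ω → ℝ) : Prop :=
  ∀ e : ℕ → Y, Steps val ψ e → ∀ z : Pt Ω → ℝ, PtLim val (fun k => T (e k)) z →
    Tendsto (fun m => z (v, m)) atTop (𝓝 (ψ v * lam))

include hval

theorem steps_exists (hTG : Stmt_TG) (ψ : Vx Ω → ℝ) (hψ : ψ ∈ D.SS) :
    ∃ e : ℕ → Y, Steps val ψ e := by
  have h1 : ∀ k, ∃ y, val y = tens ψ (ind k) := fun k =>
    hval.gen _ (hTG Ω D ψ hψ (ind k) ⟨k, fun m hm => by unfold ind; rw [if_neg (by omega)]⟩)
  choose e he using h1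
  exact ⟨e, he⟩

theorem steps_unique {ψ : Vx Ω → ℝ} {e e' : ℕ → Y} (h : Steps val ψ e) (h' : Steps val ψ e') :
    e = e' := by
  funext k
  exact hval.inj ((h k).trans (h' k).symm)

theorem exists_all (hTG : Stmt_TG) (hN : Stmt_Nice) (hBT : Stmt_BT) (hCV : Stmt_CV)
    (hBL : Stmt_BdLim) (hFL : Stmt_FL) (ψ : Vx Ω → ℝ) (hψ : ψ ∈ D.SS) :
    ∃ (e : ℕ → Y) (z : Pt Ω → ℝ), Steps val ψ e ∧ PtLim val (fun k => T (e k)) z ∧
      ∀ v, ∃ L, Tendsto (fun m => z (v, m)) atTop (𝓝 L) := by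
  obtain ⟨e, he⟩ := steps_exists D val hval hTG ψ hψ
  obtain ⟨z, hz⟩ := hCV Ω D Y val hval ψ hψ e he T
  refine ⟨e, z, he, hz, ?_⟩
  obtain ⟨C, hC0, hC⟩ := hN Ω D ψ hψ
  have h1 : ∀ k, ‖e k‖ ≤ C := by
    intro k
    apply hval.le _ _ hC0
    rw [he k]
    refine hBT Ω D C 1 C ψ (ind k) hC (ind_abs_le k) (TVle_ind k) le_rfl ?_
    intro n c _
    right; left
    rw [mul_one]
    exact le_mul_of_one_le_right hC0 (one_le_th n)
  exact hFL Ω D _ z (hBL Ω D Y val hval _ z hz (‖T‖ * C) fun k =>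
    (T.le_opNorm _).trans (mul_le_mul_of_nonneg_left (h1 k) (norm_nonneg _)))

theorem Q_zero (v : Vx Ω) (lam : ℝ) : Q val T v lam 0 := by
  intro e he z hz
  have h1 : ∀ k, e k = 0 := by
    intro k
    apply hval.inj
    rw [he k, map_zero]
    funext p
    simp [tens]
  have h2 : z = 0 := by
    funext p
    have h3 := hz p
    simp only [h1, map_zero] at h3
    exact tendsto_nhds_unique h3 tendsto_const_nhds
  rw [h2]
  simp

theorem Q_add (hTG : Stmt_TG) (hCV : Stmt_CV) (v : Vx Ω) (lam : ℝ) (ψ φ : Vx Ω → ℝ)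
    (hψ : ψ ∈ D.SS) (hφ : φ ∈ D.SS) (h1 : Q val T v lam ψ) (h2 : Q val T v lam φ) :
    Q val T v lam (ψ + φ) := by
  intro e he z hz
  obtain ⟨e1, he1⟩ := steps_exists D val hval hTG ψ hψ
  obtain ⟨e2, he2⟩ := steps_exists D val hval hTG φ hφ
  obtain ⟨z1, hz1⟩ := hCV Ω D Y val hval ψ hψ e1 he1 T
  obtain ⟨z2, hz2⟩ := hCV Ω D Y val hval φ hφ e2 he2 T
  have h3 : e = fun k => e1 k + e2 k := by
    apply steps_unique D val hval he
    intro k
    rw [map_add, he1 k, he2 k]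
    funext p
    simp [tens, add_mul]
  have h4 : z = fun p => z1 p + z2 p := by
    funext p
    have h5 := hz p
    rw [h3] at h5
    simp only [map_add, Pi.add_apply] at h5
    exact tendsto_nhds_unique h5 ((hz1 p).add (hz2 p))
  rw [h4]
  have h6 := (h1 e1 he1 z1 hz1).add (h2 e2 he2 z2 hz2)
  simpa [add_mul] using h6

theorem Q_smul (hTG : Stmt_TG) (hCV : Stmt_CV) (v : Vx Ω) (lam c : ℝ) (ψ : Vx Ω → ℝ)
    (hψ : ψ ∈ D.SS) (h1 : Q val T v lam ψ) :
    Q val T v lam (c • ψ) := by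
  intro e he z hz
  obtain ⟨e1, he1⟩ := steps_exists D val hval hTG ψ hψ
  obtain ⟨z1, hz1⟩ := hCV Ω D Y val hval ψ hψ e1 he1 T
  have h3 : e = fun k => c • e1 k := by
    apply steps_unique D val hval he
    intro k
    rw [map_smul, he1 k]
    funext p
    simp [tens, mul_assoc]
  have h4 : z = fun p => c * z1 p := by
    funext p
    have h5 := hz p
    rw [h3] at h5
    simp only [map_smul, Pi.smul_apply, smul_eq_mul] at h5
    exact tendsto_nhds_unique h5 ((hz1 p).const_mul c)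
  rw [h4]
  have h6 := (h1 e1 he1 z1 hz1).const_mul c
  simpa [mul_assoc] using h6

/-- functions vanishing on a class that contains `v` -/
theorem Q_class (hN : Stmt_Nice) (hALT : Stmt_ALT) (hINT : Stmt_INT) (hTG : Stmt_TG)
    (hBT : Stmt_BT) (hCV : Stmt_CV) (hBL : Stmt_BdLim) (hFL : Stmt_FL) (v : Vx Ω) (lam : ℝ)
    (ψ : Vx Ω → ℝ) (hψ : ψ ∈ D.SS) (c : ℕ) (hv : v ∈ D.A c) (h0 : ∀ w ∈ D.A c, ψ w = 0) :
    Q val T v lam ψ := by
  intro e he z hz
  rw [h0 v hv, zero_mul]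
  obtain ⟨C, hC0, hC⟩ := hN Ω D ψ hψ
  obtain ⟨e', z', he', hz', hlim⟩ := exists_all D val hval T hTG hN hBT hCV hBL hFL ψ hψ
  have h1 := steps_unique D val hval he he'
  subst h1
  have h2 : z = z' := by
    funext p
    exact tendsto_nhds_unique (hz p) (hz' p)
  subst h2
  obtain ⟨L, hL⟩ := hlim v
  suffices L = 0 by rw [this] at hL; exact hL
  by_contra hL0
  have hLpos : 0 < |L| := abs_pos.2 hL0
  obtain ⟨n₀, hn0⟩ := exists_nat_gt (‖T‖ * (2 * C) / (|L| / 2))
  obtain ⟨n, hn, hl⟩ := label_inf (some c) (max n₀ (D.depv v))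
  obtain ⟨k, hk, hk2⟩ := hINT Ω D Y val hval (fun k => T (e k)) v (fun m => z (v, m)) L
    (fun m => hz (v, m)) hL n c hl hv (le_trans (le_max_right _ _) hn)
  have h3 := hALT Ω D Y val hval C ψ hC0 hC e he n (Or.inr ⟨c, hl, h0⟩) k hk
  have h4 : ‖altsum (fun k => T (e k)) k (Kn n)‖ ≤ ‖T‖ * (2 * C * (Rp n : ℝ)) := by
    rw [← map_altsum]
    exact (T.le_opNorm _).trans (mul_le_mul_of_nonneg_left h3 (norm_nonneg _))
  have h5 : |L| / 2 * (((n : ℝ) + 1) * (Rp n : ℝ)) ≤ ‖T‖ * (2 * C * (Rp n : ℝ)) := by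
    rw [← Rn_eq_real]
    exact hk2.trans h4
  have hRp : (0 : ℝ) < (Rp n : ℝ) := by exact_mod_cast Rp_pos n
  have h6 : |L| / 2 * ((n : ℝ) + 1) ≤ ‖T‖ * (2 * C) := by
    have h7 : (|L| / 2 * ((n : ℝ) + 1)) * (Rp n : ℝ) ≤ (‖T‖ * (2 * C)) * (Rp n : ℝ) := by
      nlinarith
    exact le_of_mul_le_mul_right h7 hRp
  have h8 : ‖T‖ * (2 * C) < n * (|L| / 2) := by
    have h9 : ‖T‖ * (2 * C) / (|L| / 2) < n := lt_of_lt_of_le hn0
      (by exact_mod_cast le_trans (le_max_left _ _) hn)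
    rwa [div_lt_iff₀ (by positivity)] at h9
  nlinarith

end

/-- non-limit vertices near a ladder node -/
theorem not_lim_of_ns {Ω : Type} [LinearOrder Ω] (D : LD Ω) (β : Ω) (hβ : NonMin β) (w : Vx Ω)
    (a : ℕ) (h : ns w = D.lad β a) : ¬ Lim w := by
  rintro ⟨h1, -⟩
  obtain ⟨N, b, l⟩ := w
  simp only at h1
  subst h1
  rw [ns_zero] at h
  have := D.lad_pos β hβ a
  rw [← h] at this
  simp at this

theorem stmt_LOC (hN : Stmt_Nice) (hALT : Stmt_ALT) (hINT : Stmt_INT) (hTG : Stmt_TG)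
    (hBT : Stmt_BT) (hCV : Stmt_CV) (hBL : Stmt_BdLim) (hFL : Stmt_FL) : Stmt_LOC := by
  classical
  intro Ω _ D Y _ _ val hval T
  -- generators
  have hδS : ∀ w : Vx Ω, ¬ Lim w → (fun u : Vx Ω => if u = w then (1 : ℝ) else 0) ∈ D.SS := by
    intro w hw
    exact Submodule.subset_span (Or.inl ⟨w, hw, by funext u; congr⟩)
  have hGS : ∀ N β, NonMin β → D.G N β ∈ D.SS := by
    intro N β hβ
    exact Submodule.subset_span (Or.inr ⟨N, β, hβ, rfl⟩)
  -- base functions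
  have hbase : ∀ v : Vx Ω, ∃ ψ ∈ D.SS, ψ v = 1 ∧
      ((¬ Lim v ∧ ψ = fun u => if u = v then 1 else 0) ∨
        (Lim v ∧ ψ = D.G v.1 v.2.1)) := by
    intro v
    by_cases hv : Lim v
    · refine ⟨D.G v.1 v.2.1, hGS _ _ hv.2, ?_, Or.inr ⟨hv, rfl⟩⟩
      obtain ⟨N, β, l⟩ := v
      have h1 : l = 0 := hv.1
      subst h1
      exact LD.G_self N β
    · exact ⟨_, hδS v hv, if_pos rfl, Or.inl ⟨hv, rfl⟩⟩
  choose base hbaseS hbase1 hbase2 using hbase
  have hex := fun v => exists_all D val hval T hTG hN hBT hCV hBL hFL (base v) (hbaseS v)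
  choose eb zb heb hzb hlb using hex
  have hlam : ∀ v, ∃ L, Tendsto (fun m => zb v (v, m)) atTop (𝓝 L) := fun v => hlb v v
  choose Λ hΛ using hlam
  refine ⟨Λ, ?_⟩
  have hQbase : ∀ v, Q val T v (Λ v) (base v) := by
    intro v e he z hz
    have h1 := steps_unique D val hval he (heb v)
    subst h1
    have h2 : z = zb v := by
      funext p
      exact tendsto_nhds_unique (hz p) (hzb v p)
    rw [h2, hbase1, one_mul]
    exact hΛ v
  have hcl : ∀ v ψ, ψ ∈ D.SS → (∃ c, v ∈ D.A c ∧ ∀ w ∈ D.A c, ψ w = 0) → Q val T v (Λ v) ψ := by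
    rintro v ψ hψ ⟨c, hc1, hc2⟩
    exact Q_class D val hval T hN hALT hINT hTG hBT hCV hBL hFL v (Λ v) ψ hψ c hc1 hc2
  have hδ : ∀ v w : Vx Ω, ¬ Lim w →
      Q val T v (Λ v) (fun u : Vx Ω => if u = w then (1 : ℝ) else 0) := by
    intro v w hw
    by_cases hvw : v = w
    · subst hvw
      rcases hbase2 v with ⟨-, h1⟩ | ⟨h1, -⟩
      · rw [← h1]; exact hQbase v
      · exact absurd h1 hw
    · obtain ⟨c, hc1, hc2⟩ := D.sep1 v w hvw
      refine hcl v _ (hδS w hw) ⟨c, hc1, fun u hu => ?_⟩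
      rw [if_neg]
      rintro rfl
      exact hc2 hu
  -- the submodule of good functions
  let QS : Vx Ω → Submodule ℝ (Vx Ω → ℝ) := fun v =>
    { carrier := {ψ | ψ ∈ D.SS ∧ Q val T v (Λ v) ψ}
      zero_mem' := ⟨D.SS.zero_mem, Q_zero D val hval T v (Λ v)⟩
      add_mem' := fun {ψ φ} h1 h2 => ⟨D.SS.add_mem h1.1 h2.1,
        Q_add D val hval T hTG hCV v (Λ v) ψ φ h1.1 h2.1 h1.2 h2.2⟩
      smul_mem' := fun c ψ h1 => ⟨D.SS.smul_mem c h1.1,
        Q_smul D val hval T hTG hCV v (Λ v) c ψ h1.1 h1.2⟩ }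
  have hG : ∀ v N β, NonMin β → D.G N β ∈ QS v := by
    intro v N β hβ
    by_cases hv : v = (N, β, 0)
    · subst hv
      refine ⟨hGS N β hβ, ?_⟩
      rcases hbase2 (N, β, 0) with ⟨h1, -⟩ | ⟨-, h1⟩
      · exact absurd ⟨rfl, hβ⟩ h1
      · rw [← h1]; exact hQbase _
    · obtain ⟨c, k, hc1, hc2, hc3⟩ := D.sep2 v N β hβ hv
      -- the finite set of vertices
      set F : Set (Vx Ω) := ({w : Vx Ω | w.1 = N ∧ ns w = (β, 0)} \ {(N, β, 0)}) ∪
        ⋃ a ∈ Finset.range k, {w : Vx Ω | w.1 = N ∧ ns w = D.lad β a} with hF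
      have hFfin : F.Finite := by
        refine Set.Finite.union ((window_finite N (β, 0)).subset Set.sdiff_subset) ?_
        exact Set.Finite.biUnion (Finset.finite_toSet _) fun a _ => window_finite N _
      have hFlim : ∀ w ∈ F, ¬ Lim w := by
        rintro w (⟨⟨h1, h2⟩, h3⟩ | h1)
        · intro h4
          apply h3
          obtain ⟨N', b, l⟩ := w
          have h5 : l = 0 := h4.1
          subst h5
          rw [ns_zero] at h2
          simp only [Prod.mk.injEq] at h2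
          simp only at h1
          rw [h1, h2.1]
          rfl
        · simp only [Set.mem_iUnion] at h1
          obtain ⟨a, -, -, h2⟩ := h1
          exact not_lim_of_ns D β hβ w a h2
      set S : Vx Ω → ℝ := ∑ w ∈ hFfin.toFinset, (D.G N β w) • fun u : Vx Ω =>
        if u = w then (1 : ℝ) else 0 with hS
      have hSval : ∀ u, S u = if u ∈ F then D.G N β u else 0 := by
        intro u
        rw [hS, Finset.sum_apply]
        simp only [Pi.smul_apply, smul_eq_mul, mul_ite, mul_one, mul_zero]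
        rw [Finset.sum_ite_eq]
        simp
      have hSmem : ∀ v, S ∈ QS v := by
        intro v
        refine Submodule.sum_mem _ fun w hw => Submodule.smul_mem _ _ ?_
        have h1 := hFlim w (by simpa using hw)
        exact ⟨hδS w h1, hδ v w h1⟩
      have hB : D.G N β - S ∈ QS v := by
        have h1 : D.G N β - S ∈ D.SS := D.SS.sub_mem (hGS N β hβ) (hSmem v).1
        refine ⟨h1, hcl v _ h1 ⟨c, hc1, fun w hw => ?_⟩⟩
        rw [Pi.sub_apply, hSval]
        by_cases hwF : w ∈ F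
        · rw [if_pos hwF, sub_self]
        · rw [if_neg hwF, sub_zero]
          unfold LD.G
          rw [if_neg]
          rintro ⟨h2, h3 | ⟨a, h3⟩⟩
          · apply hwF
            left
            refine ⟨⟨h2, h3⟩, ?_⟩
            intro h4
            rw [Set.mem_singleton_iff] at h4
            rw [h4] at hw
            exact hc2 hw
          · rcases Nat.lt_or_ge a k with h4 | h4
            · apply hwF
              right
              simp only [Set.mem_iUnion]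
              exact ⟨a, Finset.mem_range.2 h4, h2, h3⟩
            · exact hc3 w h2 a h4 h3 hw
      have h2 := (QS v).add_mem hB (hSmem v)
      rwa [sub_add_cancel] at h2
  intro ψ hψ e he z hz v
  have h1 : D.SS ≤ QS v := by
    unfold LD.SS
    rw [Submodule.span_le]
    rintro f (⟨w, hw, rfl⟩ | ⟨N, β, hβ, rfl⟩)
    · have h2 : (fun u : Vx Ω => if u = w then (1 : ℝ) else 0) ∈ QS v := ⟨hδS w hw, hδ v w hw⟩
      rw [SetLike.mem_coe]
      convert h2
    · exact hG v N β hβ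
  exact (h1 hψ).2 e he z hz

end LOCh

end Pool.Agent.MP156639
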