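import Pool.Agent.Work.MP_156639_an.Interface
import Pool.Agent.Work.MP_156639_an.Basic

/-!
# Block UL : uniform ladder continuity of the limits
-/

set_option autoImplicit false

open scoped BigOperators
open Filter Topology

namespace Pool.Agent.MP156639

namespace ULh

/-- the interlacing recursion -/
theorem rec_exists {S : Type} (Small Close : ℕ → S → Prop) (Rel : S → S → Prop) (Good : S → Prop)
    (h0 : ∀ k, ∃ s, Good s ∧ ∀ k' ≤ k, Small k' s)
    (hA : ∀ k s, ∃ s', Rel s s' ∧ Good s' ∧ ∀ k' ≤ k, Small k' s')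
    (hB : ∀ s, ∃ κ, ∀ k ≥ κ, Close k s) :
    ∃ (k : ℕ → ℕ) (s : ℕ → S), StrictMono k ∧ (∀ j, Good (s j)) ∧ (∀ j, Rel (s j) (s (j + 1))) ∧
      (∀ i j, i ≤ j → Small (k i) (s j)) ∧ (∀ i j, j < i → Close (k i) (s j)) := by
  choose s0 hs0 using h0
  choose nx hnx using hA
  choose κ hκ using hB
  let step : ℕ × S → ℕ × S := fun p => (max (p.1 + 1) (κ p.2), nx (max (p.1 + 1) (κ p.2)) p.2)
  let st : ℕ → ℕ × S := fun j => Nat.rec (0, s0 0) (fun _ p => step p) j
  have hst : ∀ j, st (j + 1) = step (st j) := fun j => rfl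
  have hmono : StrictMono (fun j => (st j).1) := by
    apply strictMono_nat_of_lt_succ
    intro j
    rw [hst]
    exact lt_of_lt_of_le (Nat.lt_succ_self _) (le_max_left _ _)
  have hsm : ∀ j, ∀ k' ≤ (st j).1, Small k' (st j).2 := by
    intro j
    cases j with
    | zero => exact (hs0 0).2
    | succ j =>
      rw [hst]
      exact (hnx _ _).2.2
  refine ⟨fun j => (st j).1, fun j => (st j).2, hmono, ?_, ?_, ?_, ?_⟩
  · intro j
    cases j with
    | zero => exact (hs0 0).1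
    | succ j =>
      change Good (st (j + 1)).2
      rw [hst]
      exact (hnx _ _).2.1
  · intro j
    change Rel (st j).2 (st (j + 1)).2
    rw [hst]
    exact (hnx _ _).1
  · intro i j hij
    exact hsm j _ (hmono.monotone hij)
  · intro i j hij
    refine hκ _ _ ?_
    refine le_trans ?_ (hmono.monotone (Nat.succ_le_of_lt hij))
    change κ (st j).2 ≤ (st (j + 1)).1
    rw [hst]
    exact le_max_right _ _

/-- the tail of the alternating sum -/
def sg (K j : ℕ) : ℝ := ∑ i ∈ Finset.range K, if j < i then (-1 : ℝ) ^ i else 0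

theorem sg_eq (K j : ℕ) : sg K j = if j < K then ((-1) ^ (j + 1) - (-1) ^ K) / 2 else 0 := by
  induction K with
  | zero => simp [sg]
  | succ K ih =>
    have h1 : sg (K + 1) j = sg K j + if j < K then (-1 : ℝ) ^ K else 0 := by
      unfold sg; rw [Finset.sum_range_succ]
    rw [h1, ih]
    rcases lt_trichotomy j K with h | h | h
    · rw [if_pos h, if_pos h, if_pos (by omega), pow_succ (-1 : ℝ) K]
      ring
    · subst h
      rw [if_neg (lt_irrefl _), if_neg (lt_irrefl _), if_pos (by omega)]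
      ring
    · rw [if_neg (by omega), if_neg (by omega), if_neg (by omega)]
      ring

theorem sg_cases (K j : ℕ) (h : j + 1 < K) :
    (sg K j = 0 ∧ |sg K (j + 1)| = 1) ∨ (|sg K j| = 1 ∧ sg K (j + 1) = 0) := by
  rw [sg_eq, sg_eq, if_pos (by omega), if_pos h]
  have e1 : (-1 : ℝ) ^ (j + 1 + 1) = -((-1) ^ (j + 1)) := by rw [pow_succ (-1 : ℝ) (j + 1)]; ring
  rw [e1]
  rcases neg_one_pow_eq_or ℝ (j + 1) with h1 | h1 <;> rcases neg_one_pow_eq_or ℝ K with h2 | h2 <;>
    rw [h1, h2] <;> norm_num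

theorem sum_est (K : ℕ) (j : ℕ) (D : ℕ → ℝ) (Z η : ℝ) (h1 : ∀ i ≤ j, |D i| ≤ η)
    (h2 : ∀ i, j < i → |D i - Z| ≤ η) :
    |∑ i ∈ Finset.range K, (-1 : ℝ) ^ i * D i - sg K j * Z| ≤ K * η := by
  unfold sg
  rw [Finset.sum_mul, ← Finset.sum_sub_distrib]
  refine (Finset.abs_sum_le_sum_abs _ _).trans ?_
  have h3 : ∀ i ∈ Finset.range K, |(-1 : ℝ) ^ i * D i - (if j < i then (-1 : ℝ) ^ i else 0) * Z|
      ≤ η := by
    intro i _
    split_ifs with h
    · rw [← mul_sub, abs_mul, abs_pow, abs_neg, abs_one, one_pow, one_mul]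
      exact h2 i h
    · rw [zero_mul, sub_zero, abs_mul, abs_pow, abs_neg, abs_one, one_pow, one_mul]
      exact h1 i (by omega)
  calc _ ≤ ∑ i ∈ Finset.range K, η := Finset.sum_le_sum h3
    _ = K * η := by rw [Finset.sum_const, Finset.card_range, nsmul_eq_mul]

theorem scale_contra (o : Option ℕ) (B c : ℝ) (hc : 0 < c) :
    ∃ n, label n = o ∧ B * (Rp n : ℝ) * (th n : ℝ) < ((Kn n : ℝ) - 1) * c := by
  obtain ⟨n₀, hn0⟩ := exists_nat_gt (B / c)
  obtain ⟨n, hn, hl⟩ := label_inf o n₀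
  refine ⟨n, hl, ?_⟩
  have h1 : B < n * c := by
    have : B / c < n := lt_of_lt_of_le hn0 (by exact_mod_cast hn)
    rwa [div_lt_iff₀ hc] at this
  have h2 : (1 : ℝ) ≤ (th n : ℝ) * (Rp n : ℝ) := by
    have := mul_le_mul (one_le_th n) (one_le_Rp n) zero_le_one (by positivity)
    linarith
  have h3 : (Kn n : ℝ) = (th n : ℝ) * (Rp n : ℝ) * n + (th n : ℝ) * (Rp n : ℝ) := by
    rw [Kn_eq_real, Rn_eq_real]; ring
  rw [h3]
  have h4 : (0 : ℝ) < (th n : ℝ) * (Rp n : ℝ) := by linarith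
  calc B * (Rp n : ℝ) * (th n : ℝ) = ((th n : ℝ) * (Rp n : ℝ)) * B := by ring
    _ < ((th n : ℝ) * (Rp n : ℝ)) * (n * c) := mul_lt_mul_of_pos_left h1 h4
    _ ≤ _ := by nlinarith

theorem exists_le_of_fin (p : ℕ → ℕ → Prop) (h : ∀ k, ∃ a₀, ∀ a ≥ a₀, p k a) (k : ℕ) :
    ∃ a₀, ∀ a ≥ a₀, ∀ k' ≤ k, p k' a := by
  induction k with
  | zero =>
    obtain ⟨a₀, ha⟩ := h 0
    refine ⟨a₀, fun a h1 k' hk' => ?_⟩
    have : k' = 0 := by omega
    subst this
    exact ha a h1
  | succ k ih =>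
    obtain ⟨a₀, ha⟩ := ih
    obtain ⟨a₁, ha1⟩ := h (k + 1)
    refine ⟨max a₀ a₁, fun a h1 k' hk' => ?_⟩
    rcases Nat.lt_or_ge k k' with h2 | h2
    · have : k' = k + 1 := by omega
      subst this
      exact ha1 a (le_trans (le_max_right _ _) h1)
    · exact ha a (le_trans (le_max_left _ _) h1) k' h2

section
variable {Ω : Type} [LinearOrder Ω] (D : LD Ω) {Y : Type} [NormedAddCommGroup Y]
  [NormedSpace ℝ Y] (val : Y →ₗ[ℝ] (Pt Ω → ℝ)) (hval : D.IsSp val)

include hval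

/-- Part 1: fixed `m`. -/
theorem part1 (u : ℕ → Y) (z : Pt Ω → ℝ) (hz : PtLim val u z) (B : ℝ)
    (hB : ∀ n, label n = none → ∀ k : ℕ → ℕ, StrictMono k →
      ‖altsum u k (Kn n)‖ ≤ B * (Rp n : ℝ))
    (hUL : ∀ k, D.UL (val (u k))) (N : ℕ) (β : Ω) (hβ : NonMin β) (m : ℕ) (δ : ℝ) (hδ : 0 < δ) :
    ∃ a₀, ∀ a ≥ a₀, |z (st N (D.lad β a), m) - z ((N, β, 0), m)| < δ := by
  by_contra hcon
  push Not at hcon
  obtain ⟨n, hn, hcontra⟩ := scale_contra none B (δ / 2) (by positivity)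
  set K := Kn n with hK
  have hKpos : (0 : ℝ) < K := by exact_mod_cast Kn_pos n
  set η := δ / (4 * K) with hη
  have hηpos : 0 < η := by positivity
  have hKη : K * η = δ / 4 := by rw [hη]; field_simp
  set d : ℕ → ℕ → ℝ := fun k a => val (u k) (st N (D.lad β a), m) - val (u k) ((N, β, 0), m)
    with hd
  set ζ : ℕ → ℝ := fun a => z (st N (D.lad β a), m) - z ((N, β, 0), m) with hζ
  have hsmall := exists_le_of_fin (fun k a => |d k a| ≤ η) (fun k => by
    obtain ⟨a₀, ha⟩ := hUL k N β hβ η hηpos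
    exact ⟨a₀, fun a h => ha a h m⟩)
  obtain ⟨k, s, hk, hgood, hrel, hs1, hs2⟩ := rec_exists (S := ℕ) (fun k a => |d k a| ≤ η)
    (fun k a => |d k a - ζ a| ≤ η) (fun a a' => a ≤ a') (fun a => δ ≤ |ζ a|)
    (fun k => by
      obtain ⟨a₀, ha⟩ := hsmall k
      obtain ⟨a, h1, h2⟩ := hcon a₀
      exact ⟨a, h2, ha a h1⟩)
    (fun k s => by
      obtain ⟨a₀, ha⟩ := hsmall k
      obtain ⟨a, h1, h2⟩ := hcon (max a₀ s)
      exact ⟨a, le_trans (le_max_right _ _) h1, h2, ha a (le_trans (le_max_left _ _) h1)⟩)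
    (fun a => by
      have h1 : Tendsto (fun k => d k a - ζ a) atTop (𝓝 (ζ a - ζ a)) :=
        ((hz _).sub (hz _)).sub_const _
      rw [sub_self] at h1
      have h2 := (h1.abs).eventually (gt_mem_nhds (by rw [abs_zero]; exact hηpos))
      obtain ⟨κ, hκ⟩ := eventually_atTop.1 h2
      exact ⟨κ, fun k hk => (hκ k hk).le⟩)
  set g := altsum u k K with hg
  have hS : ∀ j, |val g (st N (D.lad β (s j)), m) - val g ((N, β, 0), m) - sg K j * ζ (s j)|
      ≤ δ / 4 := by
    intro j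
    rw [hg, val_altsum, val_altsum, ← Finset.sum_sub_distrib]
    have h1 := sum_est K j (fun i => d (k i) (s j)) (ζ (s j)) η (fun i hi => hs1 i j hi)
      (fun i hi => hs2 i j hi)
    rw [hKη] at h1
    have h2 : ∀ i, (-1 : ℝ) ^ i * val (u (k i)) (st N (D.lad β (s j)), m) -
        (-1 : ℝ) ^ i * val (u (k i)) ((N, β, 0), m) = (-1 : ℝ) ^ i * d (k i) (s j) := by
      intro i; rw [hd]; ring
    rw [Finset.sum_congr rfl fun i _ => h2 i]
    exact h1
  have hdiff : ∀ j, j + 1 < K → δ / 2 ≤ |val g (st N (D.lad β (s j)), m) -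
      val g (st N (D.lad β (s (j + 1))), m)| := by
    intro j hj
    have h1 := abs_le.1 (hS j)
    have h2 := abs_le.1 (hS (j + 1))
    set x := val g (st N (D.lad β (s j)), m)
    set x' := val g (st N (D.lad β (s (j + 1))), m)
    set w := val g ((N, β, 0), m)
    rcases sg_cases K j hj with ⟨h3, h4⟩ | ⟨h3, h4⟩
    · rw [h3] at h1
      have h5 : δ ≤ |sg K (j + 1) * ζ (s (j + 1))| := by
        rw [abs_mul, h4, one_mul]; exact hgood (j + 1)
      rcases le_abs'.1 h5 with h6 | h6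
      · exact le_abs.2 (Or.inl (by linarith))
      · exact le_abs.2 (Or.inr (by linarith))
    · rw [h4] at h2
      have h5 : δ ≤ |sg K j * ζ (s j)| := by
        rw [abs_mul, h3, one_mul]; exact hgood j
      rcases le_abs'.1 h5 with h6 | h6
      · exact le_abs.2 (Or.inr (by linarith))
      · exact le_abs.2 (Or.inl (by linarith))
  have htest := (hval.bd g).path n hn N β hβ s (fun i => s (i + 1)) (fun _ => m)
    (fun i => ⟨hrel i, le_rfl⟩)
  have hlow : ((K : ℝ) - 1) * (δ / 2) ≤ ∑ i ∈ Finset.range (Kn n),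
      |val g (st N (D.lad β (s i)), m) - val g (st N (D.lad β (s (i + 1))), m)| := by
    have h1 : ∑ i ∈ Finset.range (K - 1), (δ / 2) ≤ ∑ i ∈ Finset.range (Kn n),
      |val g (st N (D.lad β (s i)), m) - val g (st N (D.lad β (s (i + 1))), m)| := by
      refine le_trans (Finset.sum_le_sum (fun i hi => hdiff i ?_))
        (Finset.sum_le_sum_of_subset_of_nonneg ?_ fun i _ _ => abs_nonneg _)
      · have := Finset.mem_range.1 hi; omega
      · intro i hi
        rw [Finset.mem_range] at *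
        omega
    rw [Finset.sum_const, Finset.card_range, nsmul_eq_mul, Nat.cast_sub (Kn_pos n)] at h1
    simpa using h1
  have hnorm := hB n hn k hk
  have h3 : ‖g‖ * (th n : ℝ) ≤ B * (Rp n : ℝ) * (th n : ℝ) :=
    mul_le_mul_of_nonneg_right hnorm (by positivity)
  linarith

theorem part2 (u : ℕ → Y) (z : Pt Ω → ℝ) (hz : PtLim val u z) (B : ℝ)
    (hB : ∀ n, label n = none → ∀ k : ℕ → ℕ, StrictMono k →
      ‖altsum u k (Kn n)‖ ≤ B * (Rp n : ℝ))
    (hUL : ∀ k, D.UL (val (u k))) (N : ℕ) (β : Ω) (hβ : NonMin β) (ε : ℝ) (hε : 0 < ε) :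
    ∃ a₀, ∀ a ≥ a₀, ∀ m, |z (st N (D.lad β a), m) - z ((N, β, 0), m)| ≤ ε := by
  by_contra hcon
  push Not at hcon
  obtain ⟨n, hn, hcontra⟩ := scale_contra none B (ε / 8) (by positivity)
  set K := Kn n with hK
  have hKpos : (0 : ℝ) < K := by exact_mod_cast Kn_pos n
  set η := ε / (8 * K) with hη
  have hηpos : 0 < η := by positivity
  have hKη : K * η = ε / 8 := by rw [hη]; field_simp
  set d : ℕ → ℕ × ℕ × ℕ → ℝ := fun k s => val (u k) (st N (D.lad β s.1), s.2.2) -
    val (u k) (st N (D.lad β s.2.1), s.2.2) with hd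
  set ζ : ℕ × ℕ × ℕ → ℝ := fun s => z (st N (D.lad β s.1), s.2.2) -
    z (st N (D.lad β s.2.1), s.2.2) with hζ
  have hsmall := exists_le_of_fin (fun k a => ∀ m, |val (u k) (st N (D.lad β a), m) -
    val (u k) ((N, β, 0), m)| ≤ η / 2) (fun k => hUL k N β hβ (η / 2) (by positivity))
  have hnext : ∀ k b, ∃ s : ℕ × ℕ × ℕ, b ≤ s.1 ∧ (s.1 ≤ s.2.1 ∧ ε / 2 ≤ |ζ s|) ∧
      ∀ k' ≤ k, |d k' s| ≤ η := by
    intro k b
    obtain ⟨a₀, ha⟩ := hsmall k
    obtain ⟨a, h1, m, h2⟩ := hcon (max a₀ b)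
    obtain ⟨b₀, hb⟩ := part1 D val hval u z hz B hB hUL N β hβ m (ε / 2) (by positivity)
    set b' := max b₀ a with hb'
    have h3 := hb b' (le_max_left _ _)
    refine ⟨(a, b', m), le_trans (le_max_right _ _) h1, ⟨le_max_right _ _, ?_⟩, ?_⟩
    · simp only [hζ]
      have h4 := abs_sub_abs_le_abs_sub (z (st N (D.lad β a), m) - z ((N, β, 0), m))
        (z (st N (D.lad β b'), m) - z ((N, β, 0), m))
      rw [sub_sub_sub_cancel_right] at h4
      linarith
    · intro k' hk'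
      have h5 := ha a (le_trans (le_max_left _ _) h1) k' hk' m
      have h6 := ha b' (le_trans (le_trans (le_max_left _ _) h1) (le_max_right _ _)) k' hk' m
      simp only [hd]
      have h7 : val (u k') (st N (D.lad β a), m) - val (u k') (st N (D.lad β b'), m) =
        (val (u k') (st N (D.lad β a), m) - val (u k') ((N, β, 0), m)) -
        (val (u k') (st N (D.lad β b'), m) - val (u k') ((N, β, 0), m)) := by ring
      rw [h7]
      exact (abs_sub _ _).trans (by linarith)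
  obtain ⟨k, s, hk, hgood, hrel, hs1, hs2⟩ := rec_exists (S := ℕ × ℕ × ℕ)
    (fun k s => |d k s| ≤ η) (fun k s => |d k s - ζ s| ≤ η) (fun s s' => s.2.1 ≤ s'.1)
    (fun s => s.1 ≤ s.2.1 ∧ ε / 2 ≤ |ζ s|)
    (fun k => by
      obtain ⟨s, -, h2, h3⟩ := hnext k 0
      exact ⟨s, h2, h3⟩)
    (fun k s => hnext k s.2.1)
    (fun s => by
      have h1 : Tendsto (fun k => d k s - ζ s) atTop (𝓝 (ζ s - ζ s)) :=
        ((hz _).sub (hz _)).sub_const _
      rw [sub_self] at h1
      have h2 := (h1.abs).eventually (gt_mem_nhds (by rw [abs_zero]; exact hηpos))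
      obtain ⟨κ, hκ⟩ := eventually_atTop.1 h2
      exact ⟨κ, fun k hk => (hκ k hk).le⟩)
  set g := altsum u k K with hg
  set x : ℕ → ℝ := fun j => val g (st N (D.lad β (s j).1), (s j).2.2) -
    val g (st N (D.lad β (s j).2.1), (s j).2.2) with hx
  have hS : ∀ j, |x j - sg K j * ζ (s j)| ≤ ε / 8 := by
    intro j
    simp only [hx]
    rw [hg, val_altsum, val_altsum, ← Finset.sum_sub_distrib]
    have h1 := sum_est K j (fun i => d (k i) (s j)) (ζ (s j)) η (fun i hi => hs1 i j hi)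
      (fun i hi => hs2 i j hi)
    rw [hKη] at h1
    have h2 : ∀ i, (-1 : ℝ) ^ i * val (u (k i)) (st N (D.lad β (s j).1), (s j).2.2) -
        (-1 : ℝ) ^ i * val (u (k i)) (st N (D.lad β (s j).2.1), (s j).2.2) =
        (-1 : ℝ) ^ i * d (k i) (s j) := by
      intro i; rw [hd]; ring
    rw [Finset.sum_congr rfl fun i _ => h2 i]
    exact h1
  have hdiff : ∀ j, j + 1 < K → ε / 4 ≤ |x j| + |x (j + 1)| := by
    intro j hj
    have h1 := hS j
    have h2 := hS (j + 1)
    rcases sg_cases K j hj with ⟨h3, h4⟩ | ⟨h3, h4⟩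
    · have h5 : ε / 2 ≤ |sg K (j + 1) * ζ (s (j + 1))| := by
        rw [abs_mul, h4, one_mul]; exact (hgood (j + 1)).2
      have h6 := abs_sub_abs_le_abs_sub (sg K (j + 1) * ζ (s (j + 1))) (x (j + 1))
      have h8 := abs_sub_comm (sg K (j + 1) * ζ (s (j + 1))) (x (j + 1))
      have h7 := abs_nonneg (x j)
      linarith
    · have h5 : ε / 2 ≤ |sg K j * ζ (s j)| := by
        rw [abs_mul, h3, one_mul]; exact (hgood j).2
      have h6 := abs_sub_abs_le_abs_sub (sg K j * ζ (s j)) (x j)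
      have h8 := abs_sub_comm (sg K j * ζ (s j)) (x j)
      have h7 := abs_nonneg (x (j + 1))
      linarith
  have htest := (hval.bd g).path n hn N β hβ (fun i => (s i).1) (fun i => (s i).2.1)
    (fun i => (s i).2.2) (fun i => ⟨(hgood i).1, hrel i⟩)
  have hlow : ((K : ℝ) - 1) * (ε / 4) ≤ 2 * ∑ i ∈ Finset.range K, |x i| := by
    have h1 : ∑ i ∈ Finset.range (K - 1), (ε / 4) ≤
        ∑ i ∈ Finset.range (K - 1), (|x i| + |x (i + 1)|) := by
      refine Finset.sum_le_sum (fun i hi => hdiff i ?_)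
      have := Finset.mem_range.1 hi; omega
    have h2 : ∑ i ∈ Finset.range (K - 1), |x i| ≤ ∑ i ∈ Finset.range K, |x i| := by
      refine Finset.sum_le_sum_of_subset_of_nonneg ?_ fun i _ _ => abs_nonneg _
      intro i hi
      rw [Finset.mem_range] at *
      omega
    have h3 : ∑ i ∈ Finset.range (K - 1), |x (i + 1)| ≤ ∑ i ∈ Finset.range K, |x i| := by
      have h4 : K = K - 1 + 1 := by have := Kn_pos n; omega
      conv_rhs => rw [h4, Finset.sum_range_succ']
      have := abs_nonneg (x 0)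
      linarith
    rw [Finset.sum_add_distrib] at h1
    rw [Finset.sum_const, Finset.card_range, nsmul_eq_mul, Nat.cast_sub (Kn_pos n)] at h1
    have h5 : ((K : ℝ) - 1) * (ε / 4) ≤ ∑ i ∈ Finset.range (K - 1), |x i| +
        ∑ i ∈ Finset.range (K - 1), |x (i + 1)| := by simpa using h1
    linarith
  have hnorm := hB n hn k hk
  have h3 : ‖g‖ * (th n : ℝ) ≤ B * (Rp n : ℝ) * (th n : ℝ) :=
    mul_le_mul_of_nonneg_right hnorm (by positivity)
  have htest' : ∑ i ∈ Finset.range K, |x i| ≤ ‖g‖ * (th n : ℝ) := htest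
  linarith

end

theorem stmt_UL (hN : Stmt_Nice) (hALT : Stmt_ALT) (hO2 : Stmt_O2) : Stmt_UL := by
  intro Ω _ D Y _ _ val hval ψ hψ e he T z hz N β hβ ε hε
  obtain ⟨C, hC0, hC⟩ := hN Ω D ψ hψ
  refine part2 D val hval (fun k => T (e k)) z hz (‖T‖ * (2 * C)) ?_
    (fun k => hO2 Ω D Y val hval _) N β hβ ε hε
  intro n hn k hk
  have h1 := hALT Ω D Y val hval C ψ hC0 hC e he n (Or.inl hn) k hk
  rw [← map_altsum]
  refine (T.le_opNorm _).trans ?_
  rw [mul_assoc]
  exact mul_le_mul_of_nonneg_left h1 (norm_nonneg _)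

end ULh

end Pool.Agent.MP156639
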